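import Pool.Agent.LPC.Stmts

/-!
# LPC, row GIN: integrability of polynomial times Gaussian
-/

set_option autoImplicit false

open MeasureTheory Filter Topology
open scoped RealInnerProductSpace

namespace Pool.Agent.LPC.H7

open Pool.Agent.LPC

theorem int_gauss (n : ℕ) {b : ℝ} (hb : 0 < b) :
    Integrable (fun w : V n => Real.exp (-b * ‖w‖ ^ 2)) := by
  have h1 := GaussianFourier.integrable_cexp_neg_mul_sq_norm_add (V := V n) (b := (b : ℂ))
    (by simpa using hb) 0 0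
  refine h1.norm.congr (ae_of_all _ fun w => ?_)
  beta_reduce
  rw [Complex.norm_exp]
  congr 1
  have h2 : (-(b : ℂ) * ((‖w‖ : ℝ) : ℂ) ^ 2 + 0 * ((⟪(0 : V n), w⟫ : ℝ) : ℂ)) =
      ((-b * ‖w‖ ^ 2 : ℝ) : ℂ) := by
    push_cast
    ring
  rw [h2, Complex.ofReal_re]

theorem gin : GinStmt := by
  intro n m a ha
  have h1 := (int_gauss n (b := a / 4) (by positivity)).const_mul
    (1 + m.factorial * (4 / a) ^ m : ℝ)
  refine h1.mono' (by fun_prop) (ae_of_all _ fun w => ?_)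
  have hw : 0 ≤ ‖w‖ := norm_nonneg w
  rw [Real.norm_of_nonneg (by positivity)]
  have h2 : (‖w‖ ^ 2) ^ m ≤ m.factorial * (4 / a) ^ m * Real.exp (a / 4 * ‖w‖ ^ 2) := by
    have h3 := Real.pow_div_factorial_le_exp (a / 4 * ‖w‖ ^ 2) (by positivity) m
    rw [div_le_iff₀ (by positivity), mul_pow] at h3
    have h4 : (‖w‖ ^ 2) ^ m = (4 / a) ^ m * ((a / 4) ^ m * (‖w‖ ^ 2) ^ m) := by
      rw [← mul_assoc, ← mul_pow]
      have : 4 / a * (a / 4) = 1 := by field_simp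
      rw [this, one_pow, one_mul]
    rw [h4]
    calc (4 / a) ^ m * ((a / 4) ^ m * (‖w‖ ^ 2) ^ m)
        ≤ (4 / a) ^ m * (Real.exp (a / 4 * ‖w‖ ^ 2) * m.factorial) :=
          mul_le_mul_of_nonneg_left h3 (by positivity)
      _ = _ := by ring
  have h5 : ‖w‖ ^ m ≤ 1 + (‖w‖ ^ 2) ^ m := by
    rcases le_total ‖w‖ 1 with h | h
    · have := pow_le_one₀ (n := m) hw h
      have h6 : 0 ≤ (‖w‖ ^ 2) ^ m := by positivity
      linarith
    · have h6 : ‖w‖ ^ m ≤ (‖w‖ ^ 2) ^ m := by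
        rw [← pow_mul]
        exact pow_le_pow_right₀ h (by omega)
      linarith
  have h7 : (1:ℝ) ≤ Real.exp (a / 4 * ‖w‖ ^ 2) := Real.one_le_exp (by positivity)
  have h8 : ‖w‖ ^ m ≤ (1 + m.factorial * (4 / a) ^ m) * Real.exp (a / 4 * ‖w‖ ^ 2) := by
    calc ‖w‖ ^ m ≤ 1 + (‖w‖ ^ 2) ^ m := h5
      _ ≤ Real.exp (a / 4 * ‖w‖ ^ 2) + m.factorial * (4 / a) ^ m * Real.exp (a / 4 * ‖w‖ ^ 2) :=
        add_le_add h7 h2
      _ = _ := by ring
  calc ‖w‖ ^ m * Real.exp (-a * ‖w‖ ^ 2 / 2)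
      ≤ ((1 + m.factorial * (4 / a) ^ m) * Real.exp (a / 4 * ‖w‖ ^ 2)) *
          Real.exp (-a * ‖w‖ ^ 2 / 2) :=
        mul_le_mul_of_nonneg_right h8 (Real.exp_pos _).le
    _ = (1 + m.factorial * (4 / a) ^ m) * Real.exp (-(a / 4) * ‖w‖ ^ 2) := by
        rw [mul_assoc, ← Real.exp_add]
        congr 2
        ring

end Pool.Agent.LPC.H7
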